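import Pool.Agent.Lib.MP_f7db8a.Main
import Pool.Agent.Lib.MP_f7db8a.HomThreeG
import Pool.Agent.Lib.MP_f7db8a.QH

set_option autoImplicit false

/-!
# Star bodies with homothetic `k`-sections are homothetic

Question Q1 of `MP_f7db8a_gt` for all `2 ≤ k ≤ n - 1`.
-/

namespace Pool.Agent.Results.MP_f7db8a_gt.HomotheticStarBodies

open Module

/-- The radial function of `K` in the direction `u`. -/
noncomputable def radial {n : ℕ} (K : Set (EuclideanSpace ℝ (Fin n)))
    (u : EuclideanSpace ℝ (Fin n)) : ℝ :=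
  sSup {t : ℝ | 0 ≤ t ∧ t • u ∈ K}

/-- Star bodies in `ℝⁿ`: compact, star-shaped with respect to the origin, with positive and
continuous radial function on the unit sphere. -/
def IsStarBody {n : ℕ} (K : Set (EuclideanSpace ℝ (Fin n))) : Prop :=
  IsCompact K ∧ (∀ y ∈ K, ∀ t : ℝ, 0 ≤ t → t ≤ 1 → t • y ∈ K) ∧
    (∀ u : EuclideanSpace ℝ (Fin n), ‖u‖ = 1 → 0 < radial K u) ∧
    ContinuousOn (radial K) {u : EuclideanSpace ℝ (Fin n) | ‖u‖ = 1}

/-- `B` is homothetic to `A`: `B = c A + x` for some `c > 0` and some vector `x`. -/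
def IsHomothetic {n : ℕ} (A B : Set (EuclideanSpace ℝ (Fin n))) : Prop :=
  ∃ c : ℝ, 0 < c ∧ ∃ x : EuclideanSpace ℝ (Fin n), B = (fun y => c • y + x) '' A

/-- For every `k`-dimensional linear subspace `S`, the sections `K ∩ S` and `L ∩ S` are homothetic
(the ratio and the translation vector may depend on `S`). -/
def HomotheticSections {n : ℕ} (k : ℕ) (K L : Set (EuclideanSpace ℝ (Fin n))) : Prop :=
  ∀ S : Submodule ℝ (EuclideanSpace ℝ (Fin n)), finrank ℝ S = k →
    IsHomothetic (K ∩ (S : Set (EuclideanSpace ℝ (Fin n))))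
      (L ∩ (S : Set (EuclideanSpace ℝ (Fin n))))

theorem IsStarBody.lib {n : ℕ} {K : Set (EuclideanSpace ℝ (Fin n))} (hK : IsStarBody K)
    (hn : 0 < n) : Pool.Agent.Lib.MP_f7db8a.IsStarBody K := by
  obtain ⟨h1, h2, h3, h4⟩ := hK
  refine ⟨h1, ?_, ?_, ?_⟩
  · intro y hy a b ha hb hab
    rw [smul_zero, zero_add]
    exact h2 y hy b hb (by linarith)
  · intro u hu
    exact h3 u (by simpa using hu)
  · have : Metric.sphere (0 : EuclideanSpace ℝ (Fin n)) 1 = {u | ‖u‖ = 1} := by
      ext u; simp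
    rw [this]
    exact h4

/-- **Star bodies with homothetic `k`-sections are homothetic.** -/
theorem result (n k : ℕ) (hk : 2 ≤ k) (hkn : k ≤ n - 1) (K L : Set (EuclideanSpace ℝ (Fin n)))
    (hK : IsStarBody K) (hL : IsStarBody L) (h : HomotheticSections k K L) :
    IsHomothetic K L := by
  exact Pool.Agent.Lib.MP_f7db8a.Hom.all_of_three_two_gen
    (fun K L hK hL h => Pool.Agent.Lib.MP_f7db8a.Q.q1_three
      (Pool.Agent.Lib.MP_f7db8a.IsStarBody.sb (by norm_num) hK)
      (Pool.Agent.Lib.MP_f7db8a.IsStarBody.sb (by norm_num) hL) h)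
    n k hk (by omega) K L (hK.lib (by omega)) (hL.lib (by omega)) h

end Pool.Agent.Results.MP_f7db8a_gt.HomotheticStarBodies
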