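import Pool.Agent.Lib.MP_f7db8a.Final

set_option autoImplicit false

namespace Pool.Agent.Results.MP_f7db8a_gt.StarBodyTranslates

open Pool.Agent.Lib.MP_f7db8a

/-- Question Q2 in full: if `2 ≤ k ≤ n - 1` and all `k`-sections (by linear subspaces) of two star
bodies `K, L` in `ℝⁿ` are translates of each other, then `K` and `L` are translates of each
other. -/
theorem result : ∀ n k : ℕ, 2 ≤ k → k < n →
    ∀ K L : Set (EuclideanSpace ℝ (Fin n)), IsStarBody K → IsStarBody L →
      (∀ S : Submodule ℝ (EuclideanSpace ℝ (Fin n)), Module.finrank ℝ S = k →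
        IsTranslate (K ∩ (S : Set (EuclideanSpace ℝ (Fin n))))
          (L ∩ (S : Set (EuclideanSpace ℝ (Fin n))))) →
      IsTranslate K L :=
  fun n k hk hkn K L hK hL h => q2_holds n k hk hkn K L hK hL h

end Pool.Agent.Results.MP_f7db8a_gt.StarBodyTranslates
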